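import Pool.Agent.Helper75.PM.Stm

/-!
# Package MB of the project PM: averages of the Gamma densities
-/

set_option autoImplicit false

open MeasureTheory Set
open scoped ENNReal

namespace Pool.Agent.Helper47.PM
open Pool.Agent.Helper75.PM

lemma gI (n : ℕ) : IntegrableOn (fun u : ℝ => u ^ n * Real.exp (-u)) (Ioi 0) ∧
    ∫ u in Ioi (0 : ℝ), u ^ n * Real.exp (-u) = n.factorial := by
  have h : ∀ u ∈ Ioi (0 : ℝ), Real.exp (-u) * u ^ (((n : ℝ) + 1) - 1) = u ^ n * Real.exp (-u) := by
    intro u hu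
    rw [add_sub_cancel_right, Real.rpow_natCast, mul_comm]
  have h1 := Real.GammaIntegral_convergent (s := (n : ℝ) + 1) (by positivity)
  have h2 := Real.Gamma_eq_integral (s := (n : ℝ) + 1) (by positivity)
  rw [setIntegral_congr_fun measurableSet_Ioi h, Real.Gamma_nat_eq_factorial] at h2
  exact ⟨h1.congr_fun h measurableSet_Ioi, h2.symm⟩

lemma gamma_lower (m : ℕ) (η a b : ℝ) (hη : 0 < η) (ha : 0 < a)
    (h : ∀ u : ℝ, 0 < u → u ∉ Icc a b → η ^ 2 * ((m : ℝ) + 1) ^ 2 ≤ (u - ((m : ℝ) + 1)) ^ 2) :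
    1 - 1 / (η ^ 2 * ((m : ℝ) + 1)) ≤ ∫ u in Icc a b, u ^ m * Real.exp (-u) / m.factorial := by
  set k : ℝ := (m : ℝ) + 1 with hk
  have hkpos : 0 < k := by positivity
  have hm0 : (0 : ℝ) < m.factorial := by positivity
  obtain ⟨i0, e0⟩ := gI m
  obtain ⟨i1, e1⟩ := gI (m + 1)
  obtain ⟨i2, e2⟩ := gI (m + 2)
  have hsub : Ioi (0 : ℝ) ∩ Icc a b = Icc a b := by
    ext u
    simp only [mem_inter_iff, mem_Ioi, mem_Icc]
    constructor
    · exact fun hu => hu.2
    · exact fun hu => ⟨lt_of_lt_of_le ha hu.1, hu⟩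
  have hR : ∫ u in Icc a b, u ^ m * Real.exp (-u) / m.factorial =
      ∫ u in Ioi (0 : ℝ), (Icc a b).indicator (fun u => u ^ m * Real.exp (-u) / m.factorial) u := by
    rw [setIntegral_indicator measurableSet_Icc, hsub]
  have hL : ∫ u in Ioi (0 : ℝ), ((u ^ m * Real.exp (-u)) * (1 / m.factorial - 1 / (m.factorial * η ^ 2)) +
      (u ^ (m + 1) * Real.exp (-u)) * (2 / (m.factorial * (η ^ 2 * k))) -
      (u ^ (m + 2) * Real.exp (-u)) * (1 / (m.factorial * (η ^ 2 * k ^ 2)))) =
      1 - 1 / (η ^ 2 * k) := by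
    have j0 : Integrable (fun u : ℝ => (u ^ m * Real.exp (-u)) *
        (1 / m.factorial - 1 / (m.factorial * η ^ 2))) (volume.restrict (Ioi 0)) := i0.mul_const _
    have j1 : Integrable (fun u : ℝ => (u ^ (m + 1) * Real.exp (-u)) *
        (2 / (m.factorial * (η ^ 2 * k)))) (volume.restrict (Ioi 0)) := i1.mul_const _
    have j2 : Integrable (fun u : ℝ => (u ^ (m + 2) * Real.exp (-u)) *
        (1 / (m.factorial * (η ^ 2 * k ^ 2)))) (volume.restrict (Ioi 0)) := i2.mul_const _
    have j01 : Integrable (fun u : ℝ => (u ^ m * Real.exp (-u)) *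
        (1 / m.factorial - 1 / (m.factorial * η ^ 2)) + (u ^ (m + 1) * Real.exp (-u)) *
        (2 / (m.factorial * (η ^ 2 * k)))) (volume.restrict (Ioi 0)) := j0.add j1
    rw [integral_sub j01 j2, integral_add j0 j1, integral_mul_const, integral_mul_const,
      integral_mul_const, e0, e1, e2]
    have f1 : ((m + 1).factorial : ℝ) = k * m.factorial := by
      rw [Nat.factorial_succ]; push_cast; rw [hk]
    have f2 : ((m + 2).factorial : ℝ) = (k + 1) * (k * m.factorial) := by
      rw [Nat.factorial_succ, Nat.factorial_succ, hk]; push_cast; ring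
    rw [f1, f2]
    field_simp
    ring
  rw [hR, ← hL]
  have hGi : IntegrableOn (fun u : ℝ => u ^ m * Real.exp (-u) / m.factorial) (Ioi 0) :=
    i0.div_const _
  refine setIntegral_mono_on (((i0.mul_const _).add (i1.mul_const _)).sub (i2.mul_const _))
    (hGi.indicator measurableSet_Icc) measurableSet_Ioi ?_
  intro u hu
  have hu0 : 0 < u := hu
  have hG : 0 ≤ u ^ m * Real.exp (-u) / m.factorial := by positivity
  have hid : (u ^ m * Real.exp (-u)) * (1 / m.factorial - 1 / (m.factorial * η ^ 2)) +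
      (u ^ (m + 1) * Real.exp (-u)) * (2 / (m.factorial * (η ^ 2 * k))) -
      (u ^ (m + 2) * Real.exp (-u)) * (1 / (m.factorial * (η ^ 2 * k ^ 2))) =
      (u ^ m * Real.exp (-u) / m.factorial) * (1 - (u - k) ^ 2 / (η ^ 2 * k ^ 2)) := by
    field_simp
    ring
  rw [hid]
  by_cases hmem : u ∈ Icc a b
  · rw [indicator_of_mem hmem]
    have : 0 ≤ (u - k) ^ 2 / (η ^ 2 * k ^ 2) := by positivity
    nlinarith
  · rw [indicator_of_notMem hmem]
    have h3 := h u hu0 hmem
    have : 1 ≤ (u - k) ^ 2 / (η ^ 2 * k ^ 2) := by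
      rw [le_div_iff₀ (by positivity), one_mul]
      exact h3
    nlinarith

lemma chg (m : ℕ) (t δ : ℝ) (ht : 0 < t) (hδ : 0 < δ) (hδ1 : δ < 1) :
    ∫⁻ τ in Icc ((1 - δ) * t) ((1 + δ) * t), ENNReal.ofReal (weight (m + 1) τ t) =
      ∫⁻ u in Icc (((m : ℝ) + 1) / (1 + δ)) (((m : ℝ) + 1) / (1 - δ)),
        ENNReal.ofReal (u ^ m * Real.exp (-u) / m.factorial) := by
  set k : ℝ := (m : ℝ) + 1 with hk
  have hkpos : 0 < k := by positivity
  have h1δ : 0 < 1 - δ := by linarith
  have h1δ' : 0 < 1 + δ := by linarith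
  have him : (fun τ : ℝ => k * t / τ) '' Icc ((1 - δ) * t) ((1 + δ) * t) =
      Icc (k / (1 + δ)) (k / (1 - δ)) := by
    ext u
    simp only [mem_image, mem_Icc]
    constructor
    · rintro ⟨τ, ⟨h1, h2⟩, rfl⟩
      have hτ : 0 < τ := lt_of_lt_of_le (by positivity) h1
      constructor
      · rw [div_le_div_iff₀ h1δ' hτ]
        nlinarith
      · rw [div_le_div_iff₀ hτ h1δ]
        nlinarith
    · rintro ⟨h1, h2⟩
      have hu : 0 < u := lt_of_lt_of_le (by positivity) h1
      refine ⟨k * t / u, ⟨?_, ?_⟩, ?_⟩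
      · rw [le_div_iff₀ hu]
        rw [le_div_iff₀ h1δ] at h2
        nlinarith
      · rw [div_le_iff₀ hu]
        rw [div_le_iff₀ h1δ'] at h1
        nlinarith
      · field_simp
  have hpos : ∀ τ ∈ Icc ((1 - δ) * t) ((1 + δ) * t), 0 < τ := fun τ hτ =>
    lt_of_lt_of_le (by positivity) hτ.1
  rw [← him, lintegral_image_eq_lintegral_abs_deriv_mul measurableSet_Icc
    (f' := fun τ => -(k * t) / τ ^ 2)]
  · refine setLIntegral_congr_fun measurableSet_Icc ?_
    intro τ hτ
    have hτ0 := hpos τ hτ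
    dsimp only
    rw [← ENNReal.ofReal_mul (abs_nonneg _)]
    congr 1
    have e : |-(k * t) / τ ^ 2| = k * t / τ ^ 2 := by
      rw [abs_div, abs_neg, abs_of_pos (by positivity), abs_of_pos (by positivity)]
    have e4 : k * t / τ ^ 2 = (k / τ) ^ 2 * t / k := by field_simp
    rw [e, e4]
    unfold weight
    have f1 : ((m + 1).factorial : ℝ) = k * m.factorial := by
      rw [Nat.factorial_succ]; push_cast; rw [hk]
    have f2 : ((m + 1 : ℕ) : ℝ) = k := by push_cast; rw [hk]
    rw [f1, f2]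
    have f3 : k * t / τ = k / τ * t := by ring
    rw [f3]
    have hm0 : (m.factorial : ℝ) ≠ 0 := by positivity
    generalize k / τ = x
    rw [mul_pow]
    field_simp
    ring
  · intro τ hτ
    have hτ0 := hpos τ hτ
    have h := ((hasDerivAt_inv hτ0.ne').const_mul (k * t)).hasDerivWithinAt
      (s := Icc ((1 - δ) * t) ((1 + δ) * t))
    have e1 : (fun τ : ℝ => k * t / τ) = fun y => (k * t) * y⁻¹ := by
      funext y; rw [div_eq_mul_inv]
    have e2 : -(k * t) / τ ^ 2 = k * t * -(τ ^ 2)⁻¹ := by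
      rw [div_eq_mul_inv]; ring
    rw [e1, e2]
    exact h
  · intro τ hτ τ' hτ' he
    have h1 := hpos τ hτ
    have h2 := hpos τ' hτ'
    have he' : k * t / τ = k * t / τ' := he
    rw [div_eq_div_iff h1.ne' h2.ne'] at he'
    have h3 : k * t ≠ 0 := by positivity
    exact (mul_left_cancel₀ h3 he').symm

/-- The mass of the part near `t`. -/
lemma mass (δ κ : ℝ) (hδ : 0 < δ) (hδ1 : δ < 1) (hκ : 0 < κ) : ∃ K : ℕ, ∀ k : ℕ, K ≤ k →
    ∀ t : ℝ, 0 < t → ENNReal.ofReal (1 / (1 + κ)) ≤
      ∫⁻ τ in Icc ((1 - δ) * t) ((1 + δ) * t), ENNReal.ofReal (weight k τ t) := by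
  set η : ℝ := δ / (1 + δ) with hη
  have h1δ : 0 < 1 - δ := by linarith
  have h1δ' : 0 < 1 + δ := by linarith
  have hηpos : 0 < η := by positivity
  obtain ⟨K, hK⟩ := exists_nat_gt ((1 + κ) / (κ * η ^ 2))
  refine ⟨K + 1, ?_⟩
  intro k hk t ht
  obtain ⟨m, rfl⟩ : ∃ m, k = m + 1 := ⟨k - 1, by omega⟩
  rw [chg m t δ ht hδ hδ1]
  have hkpos : (0 : ℝ) < (m : ℝ) + 1 := by positivity
  have hint : IntegrableOn (fun u : ℝ => u ^ m * Real.exp (-u) / m.factorial)
      (Icc (((m : ℝ) + 1) / (1 + δ)) (((m : ℝ) + 1) / (1 - δ))) := by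
    refine IntegrableOn.mono_set ((gI m).1.div_const _) ?_
    intro u hu
    exact lt_of_lt_of_le (by positivity) hu.1
  rw [← ofReal_integral_eq_lintegral_ofReal hint]
  · refine ENNReal.ofReal_le_ofReal ?_
    have h1 := gamma_lower m η (((m : ℝ) + 1) / (1 + δ)) (((m : ℝ) + 1) / (1 - δ)) hηpos
      (by positivity) (by
        intro u hu hnot
        have hid : η * (1 + δ) = δ := by rw [hη]; field_simp
        rw [mem_Icc, not_and_or, not_le, not_le] at hnot
        rcases hnot with h | h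
        · rw [lt_div_iff₀ h1δ'] at h
          have h2 : η * ((m : ℝ) + 1) ≤ ((m : ℝ) + 1) - u := by
            have : (1 + δ) * (η * ((m : ℝ) + 1)) ≤ (1 + δ) * (((m : ℝ) + 1) - u) := by nlinarith
            exact le_of_mul_le_mul_left this h1δ'
          nlinarith [mul_pos hηpos hkpos]
        · rw [div_lt_iff₀ h1δ] at h
          have h2 : η * ((m : ℝ) + 1) ≤ u - ((m : ℝ) + 1) := by
            have h3 : δ * ((m : ℝ) + 1) ≤ (u - ((m : ℝ) + 1)) * (1 - δ) := by nlinarith
            have h4 : 0 < u - ((m : ℝ) + 1) := by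
              by_contra hcon
              push Not at hcon
              nlinarith
            have : (1 + δ) * (η * ((m : ℝ) + 1)) ≤ (1 + δ) * (u - ((m : ℝ) + 1)) := by nlinarith
            exact le_of_mul_le_mul_left this h1δ'
          nlinarith [mul_pos hηpos hkpos])
    refine le_trans ?_ h1
    have hm : (1 + κ) / (κ * η ^ 2) ≤ (m : ℝ) + 1 := by
      have : (K : ℝ) + 1 ≤ (m : ℝ) + 1 := by exact_mod_cast hk
      linarith
    rw [div_le_iff₀ (by positivity)] at hm
    have h5 : 1 / (η ^ 2 * ((m : ℝ) + 1)) ≤ κ / (1 + κ) := by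
      rw [div_le_div_iff₀ (by positivity) (by positivity)]
      nlinarith
    have h6 : κ / (1 + κ) = 1 - 1 / (1 + κ) := by field_simp; ring
    linarith
  · refine (ae_restrict_iff' measurableSet_Icc).2 (Filter.Eventually.of_forall ?_)
    intro u hu
    have : 0 < u := lt_of_lt_of_le (by positivity) hu.1
    show 0 ≤ u ^ m * Real.exp (-u) / m.factorial
    positivity

theorem avg : S_avg := by
  intro α β δ κ hα hαβ hδ hδ1 hκ
  obtain ⟨K, hK⟩ := mass δ κ hδ hδ1 hκ
  refine ⟨K, ?_⟩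
  intro k hk T M g hT hM hg hg0 hyp
  have hβ : 0 < β := lt_trans hα hαβ
  have hκ1 : 0 < 1 + κ := by linarith
  set J : Set ℝ := Icc (α * (1 - δ) * T) (β * (1 + δ) * T) with hJ
  have hmeas : Measurable (Function.uncurry fun τ t : ℝ => ENNReal.ofReal (weight k τ t * g t)) := by
    unfold Function.uncurry weight
    have hg' := hg.measurable
    fun_prop
  have hup : ∫⁻ τ in J, ∫⁻ t in Ioi (0 : ℝ), ENNReal.ofReal (weight k τ t * g t) ≤
      ENNReal.ofReal M * ENNReal.ofReal (β * (1 + δ) * T - α * (1 - δ) * T) := by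
    calc ∫⁻ τ in J, ∫⁻ t in Ioi (0 : ℝ), ENNReal.ofReal (weight k τ t * g t)
        ≤ ∫⁻ _ in J, ENNReal.ofReal M := by
          refine setLIntegral_mono' measurableSet_Icc ?_
          intro τ hτ
          exact hyp τ hτ.1 hτ.2
      _ = ENNReal.ofReal M * ENNReal.ofReal (β * (1 + δ) * T - α * (1 - δ) * T) := by
          rw [setLIntegral_const, hJ, Real.volume_Icc]
  have hlow : ∫⁻ t in Icc (α * T) (β * T), ENNReal.ofReal (g t) * ENNReal.ofReal (1 / (1 + κ)) ≤
      ∫⁻ τ in J, ∫⁻ t in Ioi (0 : ℝ), ENNReal.ofReal (weight k τ t * g t) := by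
    calc ∫⁻ t in Icc (α * T) (β * T), ENNReal.ofReal (g t) * ENNReal.ofReal (1 / (1 + κ))
        ≤ ∫⁻ t in Icc (α * T) (β * T), ∫⁻ τ in J, ENNReal.ofReal (weight k τ t * g t) := by
          refine setLIntegral_mono' measurableSet_Icc ?_
          intro t ht
          have ht0 : 0 < t := lt_of_lt_of_le (by positivity) ht.1
          have hsub : Icc ((1 - δ) * t) ((1 + δ) * t) ⊆ J := by
            rw [hJ]
            refine Icc_subset_Icc ?_ ?_
            · have := mul_le_mul_of_nonneg_left ht.1 (by linarith : (0 : ℝ) ≤ 1 - δ)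
              nlinarith
            · have := mul_le_mul_of_nonneg_left ht.2 (by linarith : (0 : ℝ) ≤ 1 + δ)
              nlinarith
          have h1 : ENNReal.ofReal (1 / (1 + κ)) ≤ ∫⁻ τ in J, ENNReal.ofReal (weight k τ t) :=
            (hK k hk t ht0).trans (lintegral_mono_set hsub)
          have h2 : ∫⁻ τ in J, ENNReal.ofReal (weight k τ t * g t) =
              ENNReal.ofReal (g t) * ∫⁻ τ in J, ENNReal.ofReal (weight k τ t) := by
            rw [← lintegral_const_mul']
            · refine lintegral_congr fun τ => ?_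
              rw [← ENNReal.ofReal_mul (hg0 t), mul_comm]
            · exact ENNReal.ofReal_ne_top
          rw [h2]
          gcongr
      _ = ∫⁻ τ in J, ∫⁻ t in Icc (α * T) (β * T), ENNReal.ofReal (weight k τ t * g t) :=
          (lintegral_lintegral_swap hmeas.aemeasurable).symm
      _ ≤ ∫⁻ τ in J, ∫⁻ t in Ioi (0 : ℝ), ENNReal.ofReal (weight k τ t * g t) := by
          refine lintegral_mono fun τ => ?_
          refine lintegral_mono_set ?_
          intro t ht
          exact lt_of_lt_of_le (by positivity) ht.1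
  have hfin := hlow.trans hup
  rw [lintegral_mul_const' _ _ ENNReal.ofReal_ne_top] at hfin
  have h3 : ∫⁻ t in Icc (α * T) (β * T), ENNReal.ofReal (g t) =
      (∫⁻ t in Icc (α * T) (β * T), ENNReal.ofReal (g t)) * ENNReal.ofReal (1 / (1 + κ)) *
        ENNReal.ofReal (1 + κ) := by
    rw [mul_assoc, ← ENNReal.ofReal_mul (by positivity)]
    have : 1 / (1 + κ) * (1 + κ) = 1 := by field_simp
    rw [this, ENNReal.ofReal_one, mul_one]
  rw [h3]
  calc _ ≤ ENNReal.ofReal M * ENNReal.ofReal (β * (1 + δ) * T - α * (1 - δ) * T) *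
        ENNReal.ofReal (1 + κ) := by gcongr
    _ = _ := by
        rw [← ENNReal.ofReal_mul hM, ← ENNReal.ofReal_mul]
        · congr 1; ring
        · have : α * (1 - δ) ≤ β * (1 + δ) := by nlinarith
          have : 0 ≤ β * (1 + δ) * T - α * (1 - δ) * T := by nlinarith
          positivity

end Pool.Agent.Helper47.PM
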